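import Pool.Agent.Helper18.FM.GoalsA
import Pool.Agent.Helper57.HX.LimH
import Pool.Agent.Helper27.TRB.Lim

/-!
# FM (MP_97d78d_ag): the weighted limit (FLC)
-/

open Complex Metric Set Filter Topology MeasureTheory
open scoped ContDiff ComplexConjugate ComplexOrder Manifold Matrix

namespace Pool.Agent.Helper67.FM.FLC

open Pool.Agent.Helper95.Lin Pool.Agent.Helper16.Abund Pool.Agent.Helper92.Orb
  Pool.Agent.Helper10.SP Pool.Agent.Helper95.RK Pool.Agent.Helper57.HS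
  Pool.Agent.Helper15.HS Pool.Agent.Helper15.GS Pool.Agent.Helper57.RBC Pool.Agent.Helper82.HB
  Pool.Agent.Helper18.FM
open Pool.Agent.Helper10.RBC (dn)
open Pool.Agent.Helper29.HB (WL)
open Pool.Agent.Helper27.TRB (tw)
open Pool.Agent.Helper56.HS.DBZ (contM cont_det cont_inv cont_trace trace_nonneg)

universe u

theorem SeqF.sub {n : ℕ} {T : Set (Cn n)} {G : Type u} [Group G]
    {R : G → Cn n → Cn n → Prop} {H g χ : Cn n → Matrix (Fin n) (Fin n) ℂ} {s : ℝ}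
    {S N : ℕ → ℝ} {φ : ℕ → Cn n → ℝ} {H' : ℕ → Cn n → Matrix (Fin n) (Fin n) ℂ} {ε : ℕ → ℝ}
    {Q : ℕ → Cn n → Matrix (Fin n) (Fin n) ℂ} (hS : SeqF T R H g χ s S N φ H' ε Q)
    {ψ : ℕ → ℕ} (hψ : StrictMono ψ) :
    SeqF T R H g χ s (fun j => S (ψ j)) (fun j => N (ψ j)) (fun j => φ (ψ j))
      (fun j => H' (ψ j)) (fun j => ε (ψ j)) (fun j => Q (ψ j)) := by
  have hle : ∀ j, 1 / ((ψ j : ℝ) + 1) ≤ 1 / ((j : ℝ) + 1) := by
    intro j
    have h1 : (j : ℝ) ≤ (ψ j : ℝ) := by exact_mod_cast hψ.le_apply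
    exact one_div_le_one_div_of_le (by positivity) (by linarith)
  exact ⟨hS.nn, fun j => hS.S_ge _, fun j => (hS.S_le _).trans (by linarith [hle j]),
    fun j => hS.fam _, fun j => hS.sup _, fun j => hS.eps _,
    fun j => (hS.eps_le _).trans (hle j), fun j => (hS.epsN _).trans (hle j),
    fun j => hS.epsH _, fun j => hS.tke _,
    fun j => hS.m_le _, fun j => hS.m_ge _⟩

theorem seqF_tkes (hFFM : S_FFM.{u}) {n m : ℕ} {T : Set (Cn n)} {G : Type u} [Group G]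
    {R : G → Cn n → Cn n → Prop} {H : Cn n → Matrix (Fin n) (Fin n) ℂ}
    {σ : Cn n → Matrix (Fin n) (Fin m) ℂ} {h : Cn n → Matrix (Fin m) (Fin m) ℂ}
    {χ : Cn n → Matrix (Fin n) (Fin n) ℂ} {c : ℝ}
    {ψ : Cn n → ℝ} (D : FDat T R H σ h χ c ψ) {s : ℝ}
    {S N : ℕ → ℝ} {φ : ℕ → Cn n → ℝ} {H' : ℕ → Cn n → Matrix (Fin n) (Fin n) ℂ} {ε : ℕ → ℝ}
    {Q : ℕ → Cn n → Matrix (Fin n) (Fin n) ℂ} (hS : SeqF T R H (gS σ h) χ s S N φ H' ε Q)
    (j : ℕ) : TkeS T R H (ε j) (tw χ (ε j) (H' j)) (Q j) := by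
  obtain ⟨h1, h2⟩ := (hFFM T R H σ h χ c ψ D).2.1 (H' j) (ε j) (hS.fam j).ket (hS.eps j)
  refine ⟨h1, hS.eps j, hS.tke j, fun x hx => ?_⟩
  rw [h2 x, ← sub_sub]
  exact hS.epsH j x hx

/-- FLC. -/
theorem t (hFFM : S_FFM.{u}) (hFSEQ : S_FSEQ.{u}) (hFVC : S_FVC.{u}) (hRWT : S_RWT.{u})
    (hFVD : S_FVD.{u}) (hFCH : S_FCH.{u}) (hFDB : S_FDB.{u}) (hRAC : S_RAC.{u})
    (hLIMG : S_LIMG.{u}) (hLOWQ : S_LOWQ.{u}) :
    Pool.Agent.Helper18.FM.S_FLC.{u} := by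
  intro n m hn T G _ R H σ h χ c ψ D κ hκ
  have hTo := D.ket.et.isOpen
  obtain ⟨s, S₀, N₀, φ₀, H'₀, ε₀, Q₀, hS₀⟩ := hFSEQ T R H σ h χ c ψ D
  obtain ⟨K, hK, hW1, hW2⟩ := hRWT hn T R H D.ket κ hκ
  have hW₀ := fun j => hW1 (ε₀ j) _ (Q₀ j) (seqF_tkes hFFM D hS₀ j)
  have hHd : ∀ x ∈ T, (H x).det ≠ 0 := fun x hx => (D.ket.posDef x hx).det_pos.ne'
  have hHc : ContinuousOn H T := contM D.ket.smooth
  have hexp : ∀ j, ∀ x ∈ T, Real.exp (Real.log (dn T κ H (Q₀ j) x)) = dn T κ H (Q₀ j) x :=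
    fun j x hx => Real.exp_log ((hW₀ j).2.2.1 x hx).1
  have hdc : ∀ j, ContinuousOn (dn T κ H (Q₀ j)) T := by
    intro j
    have h1 := (hW₀ j).1.inv.1.continuousOn
    refine (Real.continuous_exp.comp_continuousOn h1).congr fun x hx => ?_
    exact (hexp j x hx).symm
  have hdinv : ∀ j γ x y, R γ x y → dn T κ H (Q₀ j) y = dn T κ H (Q₀ j) x := by
    intro j γ x y hxy
    obtain ⟨hx, hy⟩ := D.ket.et.mem γ x y hxy
    have h1 : Real.log (dn T κ H (Q₀ j) y) = Real.log (dn T κ H (Q₀ j) x) :=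
      (hW₀ j).1.inv.2 γ x y hxy
    rw [← hexp j x hx, ← hexp j y hy, h1]
  have hV := fun j => hFVD T R (H'₀ j) σ h χ (hS₀.fam j).ket D.sf D.pf D.trb κ hκ (S₀ j) (ε₀ j)
    (Q₀ j) (hS₀.eps j) (hS₀.sup j) (hS₀.tke j)
  have hCH := fun j => hFCH T R H σ h χ c ψ D κ hκ (ε₀ j) (H'₀ j) (Q₀ j) (hS₀.eps j)
    (hS₀.fam j).ket (hS₀.tke j)
  have hvlim := hFVC hn T R H σ h χ c ψ D κ hκ s S₀ N₀ φ₀ H'₀ ε₀ Q₀ hS₀
  have hto : ∀ f : ℕ → Cn n → ℝ, (∀ j, ContinuousOn (f j) T) → (∀ j, ∀ x ∈ T, 0 ≤ f j x) →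
      (∀ j γ x y, R γ x y → f j y = f j x) →
      Tendsto (fun j => avE T κ (Q₀ j) (f j)) atTop (𝓝 0) → ∀ C ⊆ T, IsCompact C →
      Tendsto (fun j => ∫ x in C, dn T κ H (Q₀ j) x * f j x) atTop (𝓝 0) := by
    intro f hfc hf0 hfi hfl C hC hCc
    obtain ⟨B, hB, hBl⟩ := hRAC T R H D.ket κ hκ C hC hCc
    have h1 := hfl.const_mul B
    rw [mul_zero] at h1
    refine squeeze_zero (fun j => ?_) (fun j => ?_) h1
    · exact setIntegral_nonneg hCc.measurableSet fun x hx =>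
        mul_nonneg ((hW₀ j).2.2.1 x (hC hx)).1.le (hf0 j x (hC hx))
    · exact hBl (Q₀ j) (hS₀.tke j).ket (f j) (hfc j) (hf0 j) (hfi j)
  have hnn : ∀ j, ∀ f : Cn n → ℝ, (∀ x ∈ T, 0 ≤ f x) → 0 ≤ avE T κ (Q₀ j) f := by
    intro j f hf
    exact avE_nonneg hTo hκ.nonneg (fun x hx => (Complex.pos_iff.1
      ((hS₀.tke j).ket.posDef x hx).det_pos).1.le) hf
  have cv : ∀ C ⊆ T, IsCompact C → Tendsto (fun j => ∫ x in C, dn T κ H (Q₀ j) x *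
      (S₀ j - ε₀ j * tS σ h (Q₀ j) x)) atTop (𝓝 0) :=
    hto (fun j x => S₀ j - ε₀ j * tS σ h (Q₀ j) x)
      (fun j => (hV j).1.1.continuousOn) (fun j => (hV j).2.1) (fun j => (hV j).1.2) hvlim
  have hec : ∀ j, ContinuousOn (fun x => ε₀ j * ERR σ h χ (Q₀ j) x) T :=
    fun j => (hV j).2.2.2.1
  have he0 : ∀ j, ∀ x ∈ T, 0 ≤ ε₀ j * ERR σ h χ (Q₀ j) x := by
    intro j x hx
    have h1 := (hV j).2.2.2.2.1 x hx
    unfold ERR
    rw [mul_add]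
    exact add_nonneg h1.1 h1.2
  have ca : ∀ C ⊆ T, IsCompact C → Tendsto (fun j => ∫ x in C, dn T κ H (Q₀ j) x *
      (ε₀ j * ERR σ h χ (Q₀ j) x)) atTop (𝓝 0) :=
    hto (fun j x => ε₀ j * ERR σ h χ (Q₀ j) x) hec he0
      (fun j => (hV j).2.2.2.2.2.1)
      (squeeze_zero (fun j => hnn j _ (he0 j)) (fun j => (hV j).2.2.2.2.2.2) hvlim)
  have cc : ∀ C ⊆ T, IsCompact C → Tendsto (fun j => ∫ x in C, dn T κ H (Q₀ j) x *
      (ε₀ j * (Matrix.trace (χ x * (Q₀ j x)⁻¹)).re)) atTop (𝓝 0) := by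
    refine hto (fun j x => ε₀ j * (Matrix.trace (χ x * (Q₀ j x)⁻¹)).re)
      (fun j => continuousOn_const.mul (hCH j).1.1.continuousOn)
      (fun j x hx => mul_nonneg (hS₀.eps j).le ((hCH j).2.1 x hx))
      (fun j γ x y hxy => ?_) ?_
    · have h1 := (hCH j).1.2 γ x y hxy
      simp only at h1 ⊢
      rw [h1]
    · have h1 : ∀ j, avE T κ (Q₀ j) (fun x => ε₀ j * (Matrix.trace (χ x * (Q₀ j x)⁻¹)).re) =
          ε₀ j * avE T κ (Q₀ j) (fun x => (Matrix.trace (χ x * (Q₀ j x)⁻¹)).re) := fun j =>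
        avE_const_mul T κ (Q₀ j) (ε₀ j) _
      have h2 : Tendsto (fun j : ℕ => (1 / ((j : ℝ) + 1)) * (n : ℝ)) atTop (𝓝 0) := by
        have := (tendsto_one_div_add_atTop_nhds_zero_nat (𝕜 := ℝ)).mul_const (n : ℝ)
        rwa [zero_mul] at this
      refine squeeze_zero (fun j => hnn j _ fun x hx => mul_nonneg (hS₀.eps j).le
        ((hCH j).2.1 x hx)) (fun j => ?_) h2
      rw [h1 j]
      refine mul_le_mul (hS₀.eps_le j) (hCH j).2.2 ?_ (by positivity)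
      exact hnn j _ fun x hx => (hCH j).2.1 x hx
  have hgc' : ∀ j, ContinuousOn (fun x => (Matrix.trace (Q₀ j x * (H x)⁻¹)).re) T := fun j =>
    cont_trace (contM (hS₀.tke j).ket.smooth) hHc hHd
  have hgB : ∀ C ⊆ T, IsCompact C → ∃ B : ℝ, ∀ j,
      ∫ x in C, (Matrix.trace (Q₀ j x * (H x)⁻¹)).re ≤ B := by
    intro C hC hCc
    obtain ⟨B, hB⟩ := hW2 C hC hCc
    exact ⟨B, fun j => hB (ε₀ j) _ (Q₀ j) (seqF_tkes hFFM D hS₀ j)⟩
  -- bounds of `X`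
  set M : ℝ := s + 1 with hM
  have hM0 : 0 < M := by have := hS₀.nn; rw [hM]; linarith
  have hub : ∀ j, ∀ x ∈ T, ε₀ j * tS σ h (Q₀ j) x ≤ M := by
    intro j x hx
    have h1 : ε₀ j * tS σ h (Q₀ j) x ≤ S₀ j := hS₀.m_le j x hx
    have h2 := hS₀.S_le j
    have h3 : 1 / ((j : ℝ) + 1) ≤ 1 := by
      rw [div_le_one (by positivity)]
      have : (0 : ℝ) ≤ j := Nat.cast_nonneg j
      linarith
    rw [hM]
    linarith
  obtain ⟨hs1, hs2⟩ := hFDB T R H σ h D.ket D.sf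
  have hXsm : ∀ j a b, ContDiffOn ℝ ∞ (fun y => XS (ε₀ j) σ h (Q₀ j) y a b) T := fun j =>
    (hs1 (ε₀ j) (Q₀ j) (hS₀.eps j) (hS₀.tke j).ket).1
  have hDB : ∀ C ⊆ T, IsCompact C → ∃ K' : ℝ, ∀ j, ∀ x ∈ C,
      (∀ a b, ‖XS (ε₀ j) σ h (Q₀ j) x a b‖ ≤ K') ∧
      ∀ l a b, ‖cdb l (fun y => XS (ε₀ j) σ h (Q₀ j) y a b) x‖ ^ 2 ≤
        K' * (Matrix.trace (Q₀ j x * (H x)⁻¹)).re *
          (ε₀ j * ERR σ h χ (Q₀ j) x) := by
    intro C hC hCc
    obtain ⟨K', hK', hb⟩ := hs2 C hC hCc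
    refine ⟨K' * M, fun j x hx => ?_⟩
    have hxT := hC hx
    obtain ⟨h1, h2⟩ := hb (ε₀ j) (Q₀ j) (hS₀.eps j) (hS₀.tke j).ket x hx
    have hg : 0 ≤ (Matrix.trace (Q₀ j x * (H x)⁻¹)).re :=
      trace_nonneg ((hS₀.tke j).ket.posDef x hxT).posSemidef
        (D.ket.posDef x hxT).inv.posSemidef
    obtain ⟨ha, hk⟩ := (hV j).2.2.2.2.1 x hxT
    refine ⟨fun a b => (h1 a b).trans (mul_le_mul_of_nonneg_left (hub j x hxT) hK'.le),
      fun l a b => (h2 l a b).trans ?_⟩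
    calc K' * (Matrix.trace (Q₀ j x * (H x)⁻¹)).re * (ε₀ j * AAs σ h (Q₀ j) x) *
          (ε₀ j * tS σ h (Q₀ j) x)
        ≤ K' * (Matrix.trace (Q₀ j x * (H x)⁻¹)).re * (ε₀ j * AAs σ h (Q₀ j) x) * M :=
          mul_le_mul_of_nonneg_left (hub j x hxT) (mul_nonneg (mul_nonneg hK'.le hg) ha)
      _ = K' * M * (Matrix.trace (Q₀ j x * (H x)⁻¹)).re * (ε₀ j * AAs σ h (Q₀ j) x) := by ring
      _ ≤ _ := by
          refine mul_le_mul_of_nonneg_left ?_ (mul_nonneg (mul_nonneg hK'.le hM0.le) hg)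
          unfold ERR
          rw [mul_add]
          linarith
  -- the limit
  obtain ⟨ψ', hψ', P', hP'1, hP'2⟩ := hLIMG (ι := Fin m × Fin m) T R H D.ket K
    (fun j x => Real.log (dn T κ H (Q₀ j) x))
    (fun j x q => XS (ε₀ j) σ h (Q₀ j) x q.1 q.2)
    (fun j => (hW₀ j).1) (fun j q => hXsm j q.1 q.2)
    (fun C hC hCc => by
      obtain ⟨B, hB⟩ := hDB C hC hCc
      exact ⟨B, fun j x hx q => (hB j x hx).1 q.1 q.2⟩)
    (fun C hC hCc l q => by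
      obtain ⟨K', hK'⟩ := hDB C hC hCc
      obtain ⟨B, hB⟩ := hgB C hC hCc
      have h1 := Pool.Agent.Helper94.GS.tend (n := n) (C := C) hCc
        (D := fun j => dn T κ H (Q₀ j))
        (f := fun j x => ‖cdb l (fun y => XS (ε₀ j) σ h (Q₀ j) y q.1 q.2) x‖)
        (g := fun j x => (Matrix.trace (Q₀ j x * (H x)⁻¹)).re)
        (a := fun j x => ε₀ j * ERR σ h χ (Q₀ j) x)
        (E := K) (K := K') (B := B)
        (fun j => (hdc j).mono hC) (fun j => (hgc' j).mono hC)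
        (fun j => (hec j).mono hC)
        (fun j x hx => ((hW₀ j).2.2.1 x (hC hx)).1.le)
        (fun j x hx => ((hW₀ j).2.2.1 x (hC hx)).2) (fun j x hx => norm_nonneg _)
        (fun j x hx => trace_nonneg ((hS₀.tke j).ket.posDef x (hC hx)).posSemidef
          (D.ket.posDef x (hC hx)).inv.posSemidef)
        (fun j x hx => he0 j x (hC hx)) hK.le
        (fun j x hx => (hK' j x hx).2 l q.1 q.2) hB (ca C hC hCc)
      refine h1.congr fun j => ?_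
      refine setIntegral_congr_fun hCc.measurableSet fun x hx => ?_
      show _ = Real.exp (Real.log (dn T κ H (Q₀ j) x)) * _
      rw [hexp j x (hC hx)])
  set A : Cn n → Matrix (Fin m) (Fin m) ℂ := fun x => Matrix.of fun i j => P' x (i, j) with hA
  have hψt := hψ'.tendsto_atTop
  refine ⟨s, fun j => S₀ (ψ' j), fun j => N₀ (ψ' j), fun j => φ₀ (ψ' j), fun j => H'₀ (ψ' j),
    fun j => ε₀ (ψ' j), fun j => Q₀ (ψ' j), A, ?_⟩
  refine ⟨SeqF.sub hS₀ hψ', ?_, fun i j => hP'1 (i, j), fun j => hdinv (ψ' j),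
    ⟨K, hK, fun j x hx => ((hW₀ (ψ' j)).2.2.1 x hx)⟩, ?_, ?_, ?_, ?_⟩
  · refine ⟨hTo, fun j => hdc (ψ' j), fun j x hx => ((hW₀ (ψ' j)).2.2.1 x hx).1.le,
      fun j a b => (hXsm (ψ' j) a b).continuousOn, fun a b => (hP'1 (a, b)).continuousOn,
      ?_, ?_, ?_⟩
    · intro C hC hCc
      obtain ⟨B, hB⟩ := hDB C hC hCc
      exact ⟨B, fun j x hx a b => (hB (ψ' j) x hx).1 a b⟩
    · intro C hC hCc a b
      refine (hP'2 C hC hCc (a, b)).congr fun j => ?_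
      refine setIntegral_congr_fun hCc.measurableSet fun x hx => ?_
      show Real.exp (Real.log (dn T κ H (Q₀ (ψ' j)) x)) * _ = _
      rw [hexp (ψ' j) x (hC hx)]
      rfl
    · intro C hC hCc hv
      obtain ⟨c', hc', h'⟩ := hLOWQ T R H D.ket K C hC hCc hv
      refine ⟨c', hc', fun j => (h' _ (hW₀ (ψ' j)).1).trans (le_of_eq ?_)⟩
      refine setIntegral_congr_fun hCc.measurableSet fun x hx => ?_
      exact hexp (ψ' j) x (hC hx)
  · intro C hC hCc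
    obtain ⟨B, hB⟩ := hgB C hC hCc
    exact ⟨B, fun j => hB (ψ' j)⟩
  · intro C hC hCc
    exact (cv C hC hCc).comp hψt
  · intro C hC hCc
    exact (ca C hC hCc).comp hψt
  · intro C hC hCc
    exact (cc C hC hCc).comp hψt

end Pool.Agent.Helper67.FM.FLC
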